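import Pool.Agent.Helper13.RS.St

/-!
# Project RS, module PQ
-/

set_option autoImplicit false

namespace Pool.Agent.Helper16.RS

open Pool.Agent.Helper13.RS Finset

theorem hPQ : StPQ := by
  obtain ⟨C, hC, hm⟩ := Pool.Agent.Helper13.JC.mert
  refine ⟨Real.exp (-C - 6), Real.exp_pos _, fun w a hw => ?_⟩
  have hfl : 3 ≤ ⌊w⌋₊ := Nat.le_floor (by exact_mod_cast hw)
  have hB2 : ∀ p ∈ BB w a, 2 ≤ p := by
    intro p hp
    unfold BB at hp
    rw [mem_filter, mem_Icc] at hp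
    exact hp.1.1
  have hQ3 : ∀ s ∈ QQ w a, 3 ≤ s := by
    intro s hs
    unfold QQ at hs
    rw [mem_filter, mem_Icc] at hs
    exact hs.1.1
  have h1 : Real.exp (-(∑ p ∈ BB w a, 1 / (p : ℝ)) - 1) ≤
      ∏ p ∈ BB w a, (1 - 1 / (p : ℝ)) := by
    have h3 : ∏ p ∈ BB w a, Real.exp (-(1 / (p : ℝ) + (1 / (p : ℝ)) ^ 2)) ≤
        ∏ p ∈ BB w a, (1 - 1 / (p : ℝ)) := by
      refine Finset.prod_le_prod (fun p _ => (Real.exp_pos _).le) fun p hp => ?_
      have h4 : (2 : ℝ) ≤ p := by exact_mod_cast hB2 p hp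
      refine Pool.Agent.Helper13.JC.one_sub_ge_exp (by positivity) ?_
      exact one_div_le_one_div_of_le (by norm_num) h4
    refine le_trans ?_ h3
    rw [← Real.exp_sum]
    refine Real.exp_le_exp.2 ?_
    rw [Finset.sum_neg_distrib, Finset.sum_add_distrib]
    have h5 : ∑ p ∈ BB w a, (1 / (p : ℝ)) ^ 2 = ∑ p ∈ BB w a, 1 / (p : ℝ) ^ 2 := by
      refine Finset.sum_congr rfl fun p _ => ?_
      rw [div_pow, one_pow]
    have h6 := Pool.Agent.Helper13.JC.sum_inv_sq_le hB2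
    rw [h5]
    linarith
  have h2 := Pool.Agent.Helper13.JC.prod_ge hQ3
  have hdis : Disjoint (BB w a) (QQ w a) := by
    rw [Finset.disjoint_left]
    intro p hp hq
    unfold BB at hp
    unfold QQ at hq
    rw [mem_filter, mem_Icc] at hp hq
    rcases hp.2.2 with h | h
    · omega
    · exact hq.2.2 h
  have hsub : BB w a ∪ QQ w a ⊆ (Icc 1 ⌊w⌋₊).filter Nat.Prime := by
    intro p hp
    rw [mem_filter, mem_Icc]
    rcases Finset.mem_union.1 hp with h | h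
    · unfold BB at h
      rw [mem_filter, mem_Icc] at h
      exact ⟨⟨by omega, h.1.2⟩, h.2.1⟩
    · unfold QQ at h
      rw [mem_filter, mem_Icc] at h
      exact ⟨⟨by omega, h.1.2⟩, h.2.1⟩
  have hs : ∑ p ∈ BB w a, 1 / (p : ℝ) + ∑ s ∈ QQ w a, 1 / (s : ℝ) ≤
      ∑ s ∈ (Icc 1 ⌊w⌋₊).filter Nat.Prime, 1 / (s : ℝ) := by
    rw [← Finset.sum_union hdis]
    exact Finset.sum_le_sum_of_subset_of_nonneg hsub fun s _ _ => by positivity
  have hmm := (abs_le.1 (hm ⌊w⌋₊ (by omega))).2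
  have hflr : (3 : ℝ) ≤ (⌊w⌋₊ : ℝ) := by exact_mod_cast hfl
  have hle : (⌊w⌋₊ : ℝ) ≤ w := Nat.floor_le (by linarith)
  have hlog : Real.log (⌊w⌋₊ : ℝ) ≤ Real.log w := Real.log_le_log (by linarith) hle
  have hpos : 0 < Real.log (⌊w⌋₊ : ℝ) := Real.log_pos (by linarith)
  have hll : Real.log (Real.log (⌊w⌋₊ : ℝ)) ≤ Real.log (Real.log w) := Real.log_le_log hpos hlog
  have hlw : 0 < Real.log w := lt_of_lt_of_le hpos hlog
  calc Real.exp (-C - 6) / Real.log w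
      = Real.exp (-C - 6 - Real.log (Real.log w)) := by
        rw [Real.exp_sub (-C - 6), Real.exp_log hlw]
    _ ≤ Real.exp ((-(∑ p ∈ BB w a, 1 / (p : ℝ)) - 1) + (-(∑ s ∈ QQ w a, 1 / (s : ℝ)) - 5)) := by
        refine Real.exp_le_exp.2 ?_
        linarith
    _ = Real.exp (-(∑ p ∈ BB w a, 1 / (p : ℝ)) - 1) *
          Real.exp (-(∑ s ∈ QQ w a, 1 / (s : ℝ)) - 5) := Real.exp_add _ _
    _ ≤ (∏ p ∈ BB w a, (1 - 1 / (p : ℝ))) * ∏ s ∈ QQ w a, (1 - 1 / ((s : ℝ) - 1)) :=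
        mul_le_mul h1 h2 (Real.exp_pos _).le ((Real.exp_pos _).le.trans h1)

end Pool.Agent.Helper16.RS
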